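import Pool.Agent.L0h99.MN.Stm2

set_option autoImplicit false

/-! MD/EVN: the sum of the degrees is even -/

namespace Pool.Agent.L0h89.MD

open Finset Pool.Agent.L0h99.MN Pool.Agent.L0h99.MD

theorem EVN : St_EVN := by
  intro V _ _ G
  classical
  refine ⟨(G.edgeFinset.card : ℤ), ?_⟩
  unfold E2
  have h := SimpleGraph.sum_degrees_eq_twice_card_edges G
  have h2 : ∀ x, (N G x).card = G.degree x := by
    intro x
    unfold SimpleGraph.degree
    congr 1
    ext y
    simp [mem_N]
  calc ∑ x, ((N G x).card : ℤ) = ∑ x, ((G.degree x : ℕ) : ℤ) := by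
        refine Finset.sum_congr rfl (fun x _ => ?_)
        rw [h2]
    _ = ((∑ x, G.degree x : ℕ) : ℤ) := by push_cast; rfl
    _ = 2 * (G.edgeFinset.card : ℤ) := by rw [h]; push_cast; rfl

end Pool.Agent.L0h89.MD

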