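import Pool.Agent.L0h99.MN.Stm2

set_option autoImplicit false

/-! MD/EXM: a smallest counterexample exists -/

namespace Pool.Agent.L0h89.MD

open Finset Pool.Agent.L0h99.MN Pool.Agent.L0h99.MD

theorem EXM : St_EXM := by
  intro h
  classical
  have hP : ∃ n, ∃ (V : Type) (i : Fintype V) (j : DecidableEq V) (G : SimpleGraph V),
      @Fintype.card V i = n ∧ @Bad V i j G := by
    obtain ⟨V, i, j, G, hG⟩ := h
    exact ⟨_, V, i, j, G, rfl, hG⟩
  obtain ⟨V, i, j, G0, hc, hG0⟩ := Nat.find_spec hP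
  have hmin : ∀ (V' : Type) [Fintype V'] [DecidableEq V'] (G' : SimpleGraph V'),
      Fintype.card V' < @Fintype.card V i → ¬ Bad V' G' := by
    intro V' i' j' G' hlt hb
    rw [hc] at hlt
    exact Nat.find_min hP hlt ⟨V', i', j', G', rfl, hb⟩
  have hwf : WellFounded ((· < ·) : SimpleGraph V → SimpleGraph V → Prop) := wellFounded_lt
  obtain ⟨G, hG, hGm⟩ := hwf.has_min {G | @Bad V i j G} ⟨G0, hG0⟩
  exact ⟨V, i, j, G, ⟨hG, hmin, fun G' hlt hb => hGm G' hb hlt⟩⟩

end Pool.Agent.L0h89.MD
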