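import Pool.Agent.L0h99.MN.Stm2

set_option autoImplicit false

/-! MD/ISO: a smallest counterexample has no isolated vertex -/

namespace Pool.Agent.L0h89.MD

open Finset Pool.Agent.L0h99.MN Pool.Agent.L0h99.MD

theorem ISO : St_ISO := by
  intro hIDU hEIN V _ _ G hG x
  by_contra hx
  push Not at hx
  have hNx : N G x = ∅ := by
    ext y
    simp [mem_N, hx y]
  have hself : ∀ a, x ∉ N G a := by
    intro a ha
    rw [mem_N] at ha
    exact hx a ha.symm
  have hcard : Fintype.card {z : V // z ≠ x} = Fintype.card V - 1 := by
    rw [Fintype.card_subtype_compl, Fintype.card_subtype_eq]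
  have hpos : 0 < Fintype.card V := Fintype.card_pos_iff.2 ⟨x⟩
  obtain ⟨hb1, hb2, hb3⟩ := hG.bad
  have h5 : 5 ≤ Fintype.card V := by
    by_contra hlt
    have h4 : Fintype.card V = 4 := by omega
    have hup : E2 G ≤ ∑ _x : V, (3 : ℤ) := by
      unfold E2
      apply Finset.sum_le_sum
      intro y _
      have hy : N G y ⊆ univ.erase y := by
        intro z hz
        rw [mem_N] at hz
        exact Finset.mem_erase.2 ⟨hz.ne', Finset.mem_univ _⟩
      have := Finset.card_le_card hy
      rw [Finset.card_erase_of_mem (Finset.mem_univ _), Finset.card_univ, h4] at this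
      exact_mod_cast this
    rw [Finset.sum_const, Finset.card_univ, h4] at hup
    rw [h4] at hb2
    norm_num at hup hb2
    linarith
  have hinj : Function.Injective (Subtype.val : {z : V // z ≠ x} → V) := Subtype.val_injective
  have hE := hEIN V {z : V // z ≠ x} Subtype.val G hinj
  have him : (univ.image (Subtype.val : {z : V // z ≠ x} → V)) = univ.erase x := by
    ext z
    simp
  have hEE : E2 (G.comap (Subtype.val : {z : V // z ≠ x} → V)) = E2 G := by
    rw [hE, him]
    unfold ee E2
    rw [← Finset.add_sum_erase univ (fun a => ((N G a).card : ℤ)) (Finset.mem_univ x), hNx]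
    simp only [Finset.card_empty, Nat.cast_zero, zero_add]
    apply Finset.sum_congr rfl
    intro a _
    congr 2
    ext z
    simp only [Finset.mem_inter, Finset.mem_erase, Finset.mem_univ, and_true]
    constructor
    · exact fun h => h.1
    · intro h
      refine ⟨h, ?_⟩
      rintro rfl
      exact hself a h
  apply hG.smaller {z : V // z ≠ x} (G.comap Subtype.val) (by omega)
  refine ⟨by omega, ?_, fun h => hb3 (hIDU V _ Subtype.val G hinj h)⟩
  rw [hEE, hcard]
  have : ((Fintype.card V - 1 : ℕ) : ℤ) = (Fintype.card V : ℤ) - 1 := by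
    push_cast [Nat.cast_sub hpos]; ring
  rw [this]
  linarith

end Pool.Agent.L0h89.MD
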