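import Pool.Agent.L0h99.MN.Stm2

set_option autoImplicit false

/-! MD/LCF: a set of five vertices which is a clique -/

namespace Pool.Agent.L0h89.MD

open Finset Pool.Agent.L0h99.MN Pool.Agent.L0h99.MD

/-- one vertex is connected -/
theorem Cn_single {V : Type} [Fintype V] [DecidableEq V] (G : SimpleGraph V) (x : V) :
    Cn G {x} := by
  refine ⟨⟨x, by simp⟩, ?_⟩
  intro X hX hn hne
  exfalso
  apply hne
  rcases Finset.subset_singleton_iff.1 hX with h | h
  · rw [h] at hn
    simp at hn
  · exact h

theorem LCF : St_LCF := by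
  intro V _ _ G S hS hd
  left
  have hcl : ∀ s ∈ S, ∀ y ∈ S, s ≠ y → G.Adj s y := by
    intro s hs y hy hsy
    have h1 : N G s ∩ S ⊆ S.erase s := by
      intro z hz
      rw [Finset.mem_inter, mem_N] at hz
      exact Finset.mem_erase.2 ⟨hz.1.ne', hz.2⟩
    have h2 : (S.erase s).card = 4 := by
      rw [Finset.card_erase_of_mem hs, hS]
    have h3 : N G s ∩ S = S.erase s := by
      apply Finset.eq_of_subset_of_card_le h1
      rw [h2]; exact hd s hs
    have h4 : y ∈ N G s ∩ S := by
      rw [h3]; exact Finset.mem_erase.2 ⟨hsy.symm, hy⟩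
    rw [Finset.mem_inter, mem_N] at h4
    exact h4.1
  let e := (Finset.equivFinOfCardEq hS).symm
  refine ⟨fun i => {(e i : V)}, ?_, ?_, ?_⟩
  · intro i
    exact ⟨Finset.singleton_subset_iff.2 (e i).2, Cn_single G _⟩
  · intro i j hij
    rw [Finset.disjoint_singleton]
    intro h
    exact hij (e.injective (Subtype.ext h))
  · intro i j hij
    refine ⟨e i, by simp, e j, by simp, hcl _ (e i).2 _ (e j).2 ?_⟩
    intro h
    exact hij (e.injective (Subtype.ext h))

end Pool.Agent.L0h89.MD
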