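import Pool.Agent.L0h99.MN.Stm2

set_option autoImplicit false

/-! MD/TAB and MD/TFR -/

namespace Pool.Agent.L0h89.MD

open Finset Pool.Agent.L0h99.MN Pool.Agent.L0h99.MD

theorem TAB : St_TAB := by
  intro V _ _ G S t C hT hC hD hA
  obtain ⟨x, hx, hS, hadj⟩ := hT
  refine ⟨fun i => (C i).image x, ?_, ?_, ?_⟩
  · intro i
    refine ⟨?_, ?_, ?_⟩
    · rw [hS]
      exact Finset.image_subset_image (Finset.subset_univ _)
    · exact (hC i).1.image x
    · intro X hX hXn hXne
      obtain ⟨Y, hY, hYX⟩ := Finset.subset_image_iff.1 hX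
      have hY' : Y ⊆ C i := by exact_mod_cast hY
      subst hYX
      obtain ⟨a, ha, b, hb, hab, htab⟩ := (hC i).2 Y (Finset.mem_powerset.2 hY')
        (by simpa using hXn) (by rintro rfl; exact hXne rfl)
      refine ⟨x a, Finset.mem_image_of_mem x ha, x b, ?_, hadj a b hab htab⟩
      rw [Finset.mem_sdiff] at hb ⊢
      refine ⟨Finset.mem_image_of_mem x hb.1, ?_⟩
      rw [Finset.mem_image]
      rintro ⟨c, hc, hcb⟩
      rw [hx hcb] at hc
      exact hb.2 hc
  · intro i j hij
    exact (Finset.disjoint_image hx).2 (hD i j hij)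
  · intro i j hij
    obtain ⟨a, ha, b, hb, hab, htab⟩ := hA i j hij
    exact ⟨x a, Finset.mem_image_of_mem x ha, x b, Finset.mem_image_of_mem x hb,
      hadj a b hab htab⟩

end Pool.Agent.L0h89.MD
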