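import Pool.Agent.L0h99.MN.Stm2

set_option autoImplicit false

/-! MD/TFR -/

namespace Pool.Agent.L0h89.MD

open Finset Pool.Agent.L0h99.MN Pool.Agent.L0h99.MD

/-- the check of a table, first part -/
def ck1 (t : Fin 7 → Fin 7 → Bool) (C : Fin 5 → Finset (Fin 7)) : Prop :=
  ∀ i, (C i).Nonempty ∧ ∀ X ∈ (C i).powerset, X.Nonempty → X ≠ C i →
    ∃ a ∈ X, ∃ b ∈ C i \ X, a ≠ b ∧ t a b = false

/-- the check of a table, second part -/
def ck2 (C : Fin 5 → Finset (Fin 7)) : Prop := ∀ i j, i ≠ j → Disjoint (C i) (C j)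

/-- the check of a table, third part -/
def ck3 (t : Fin 7 → Fin 7 → Bool) (C : Fin 5 → Finset (Fin 7)) : Prop :=
  ∀ i j, i ≠ j → ∃ a ∈ C i, ∃ b ∈ C j, a ≠ b ∧ t a b = false

instance (t : Fin 7 → Fin 7 → Bool) (C : Fin 5 → Finset (Fin 7)) : Decidable (ck1 t C) := by
  unfold ck1; infer_instance

instance (C : Fin 5 → Finset (Fin 7)) : Decidable (ck2 C) := by
  unfold ck2; infer_instance

instance (t : Fin 7 → Fin 7 → Bool) (C : Fin 5 → Finset (Fin 7)) : Decidable (ck3 t C) := by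
  unfold ck3; infer_instance

/-- the check of a table -/
def chk (t : Fin 7 → Fin 7 → Bool) (C : Fin 5 → Finset (Fin 7)) : Prop :=
  ck1 t C ∧ ck2 C ∧ ck3 t C

instance (t : Fin 7 → Fin 7 → Bool) (C : Fin 5 → Finset (Fin 7)) : Decidable (chk t C) := by
  unfold chk; infer_instance

theorem chkA : chk tA ![{0}, {2}, {4}, {1, 5}, {3, 6}] := by decide +kernel

theorem chkB : chk tB ![{4, 0}, {5, 2}, {6}, {1}, {3}] := by decide +kernel

theorem chkC : chk tC ![{6}, {0}, {2}, {4}, {1, 3, 5}] := by decide +kernel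

theorem chkD : chk tD ![{6}, {0, 3}, {1, 4}, {2}, {5}] := by decide +kernel

theorem TFR : St_TFR := by
  intro h V _ _ G S hT
  rcases hT with hT | hT | hT | hT
  · exact h V G S tA _ hT chkA.1 chkA.2.1 chkA.2.2
  · exact h V G S tB _ hT chkB.1 chkB.2.1 chkB.2.2
  · exact h V G S tC _ hT chkC.1 chkC.2.1 chkC.2.2
  · exact h V G S tD _ hT chkD.1 chkD.2.1 chkD.2.2

end Pool.Agent.L0h89.MD

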